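import Mathlib

set_option autoImplicit false

/-! # The discrete sandwich theorem of Frank, and the support function of a base polyhedron -/

namespace Pool.Agent.J4H86.FR

open Finset

/-- the discrete sandwich theorem -/
theorem sandwich_aux {α : Type*} [DecidableEq α] (S : Finset α) : ∀ p b : Finset α → ℤ,
    (∀ X Y, X ⊆ S → Y ⊆ S → p X + p Y ≤ p (X ∪ Y) + p (X ∩ Y)) →
    (∀ X Y, X ⊆ S → Y ⊆ S → b (X ∪ Y) + b (X ∩ Y) ≤ b X + b Y) →
    (∀ X, X ⊆ S → p X ≤ b X) → p ∅ = 0 → b ∅ = 0 →
    ∃ m : α → ℤ, ∀ X, X ⊆ S → p X ≤ ∑ i ∈ X, m i ∧ ∑ i ∈ X, m i ≤ b X := by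
  induction S using Finset.induction_on with
  | empty =>
    intro p b _ _ _ hp0 hb0
    refine ⟨fun _ => 0, fun X hX => ?_⟩
    rw [Finset.subset_empty.1 hX, hp0, hb0]
    simp
  | insert e S he ih =>
    intro p b hp hb hpb hp0 hb0
    have hss : ∀ X, X ⊆ S → X ⊆ insert e S := fun X hX => hX.trans (Finset.subset_insert _ _)
    have hse : ∀ X, X ⊆ S → insert e X ⊆ insert e S := fun X hX => Finset.insert_subset_insert _ hX
    -- the number `t`
    obtain ⟨t, ht1, ht2⟩ : ∃ t : ℤ, (∀ X, X ⊆ S → p (insert e X) - b X ≤ t) ∧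
        (∀ X, X ⊆ S → t ≤ b (insert e X) - p X) := by
      have hne : (S.powerset.image fun X => p (insert e X) - b X).Nonempty :=
        ⟨_, Finset.mem_image_of_mem _ (Finset.mem_powerset.2 (Finset.empty_subset S))⟩
      refine ⟨(S.powerset.image fun X => p (insert e X) - b X).max' hne, fun X hX =>
        Finset.le_max' _ _ (Finset.mem_image_of_mem (fun X => p (insert e X) - b X) (Finset.mem_powerset.2 hX)),
        fun Y hY => ?_⟩
      apply Finset.max'_le
      intro z hz
      obtain ⟨X, hX, rfl⟩ := Finset.mem_image.1 hz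
      have hX' := Finset.mem_powerset.1 hX
      have heX : e ∉ X := fun h => he (hX' h)
      have heY : e ∉ Y := fun h => he (hY h)
      have h1 := hp (insert e X) Y (hse X hX') (hss Y hY)
      have h2 := hb (insert e Y) X (hse Y hY) (hss X hX')
      have e1 : insert e X ∪ Y = insert e (X ∪ Y) := Finset.insert_union _ _ _
      have e2 : insert e X ∩ Y = X ∩ Y := Finset.insert_inter_of_notMem heY
      have e3 : insert e Y ∪ X = insert e (X ∪ Y) := by rw [Finset.insert_union, Finset.union_comm Y X]
      have e4 : insert e Y ∩ X = X ∩ Y := by rw [Finset.insert_inter_of_notMem heX, Finset.inter_comm Y X]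
      rw [e1, e2] at h1
      rw [e3, e4] at h2
      have h3 := hpb (insert e (X ∪ Y)) (hse _ (Finset.union_subset hX' hY))
      have h4 := hpb (X ∩ Y) (hss _ (Finset.inter_subset_left.trans hX'))
      show p (insert e X) - b X ≤ b (insert e Y) - p Y
      linarith
    obtain ⟨m, hm⟩ := ih (fun X => max (p X) (p (insert e X) - t)) (fun X => min (b X) (b (insert e X) - t))
      (by
        intro X Y hX hY
        have heX : e ∉ X := fun h => he (hX h)
        have heY : e ∉ Y := fun h => he (hY h)
        have h1 := hp X Y (hss X hX) (hss Y hY)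
        have h2 := hp (insert e X) Y (hse X hX) (hss Y hY)
        have h3 := hp X (insert e Y) (hss X hX) (hse Y hY)
        have h4 := hp (insert e X) (insert e Y) (hse X hX) (hse Y hY)
        have e1 : insert e X ∪ Y = insert e (X ∪ Y) := Finset.insert_union _ _ _
        have e2 : insert e X ∩ Y = X ∩ Y := Finset.insert_inter_of_notMem heY
        have e3 : X ∪ insert e Y = insert e (X ∪ Y) := Finset.union_insert _ _ _
        have e4 : X ∩ insert e Y = X ∩ Y := Finset.inter_insert_of_notMem heX
        have e5 : insert e X ∪ insert e Y = insert e (X ∪ Y) := (Finset.insert_union_distrib _ _ _).symm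
        have e6 : insert e X ∩ insert e Y = insert e (X ∩ Y) := (Finset.insert_inter_distrib _ _ _).symm
        rw [e1, e2] at h2
        rw [e3, e4] at h3
        rw [e5, e6] at h4
        have a1 := le_max_left (p (X ∪ Y)) (p (insert e (X ∪ Y)) - t)
        have a2 := le_max_right (p (X ∪ Y)) (p (insert e (X ∪ Y)) - t)
        have a3 := le_max_left (p (X ∩ Y)) (p (insert e (X ∩ Y)) - t)
        have a4 := le_max_right (p (X ∩ Y)) (p (insert e (X ∩ Y)) - t)
        show max (p X) (p (insert e X) - t) + max (p Y) (p (insert e Y) - t) ≤ _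
        rcases max_choice (p X) (p (insert e X) - t) with c1 | c1 <;>
          rcases max_choice (p Y) (p (insert e Y) - t) with c2 | c2 <;> rw [c1, c2] <;> linarith)
      (by
        intro X Y hX hY
        have heX : e ∉ X := fun h => he (hX h)
        have heY : e ∉ Y := fun h => he (hY h)
        have h1 := hb X Y (hss X hX) (hss Y hY)
        have h2 := hb (insert e X) Y (hse X hX) (hss Y hY)
        have h3 := hb X (insert e Y) (hss X hX) (hse Y hY)
        have h4 := hb (insert e X) (insert e Y) (hse X hX) (hse Y hY)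
        have e1 : insert e X ∪ Y = insert e (X ∪ Y) := Finset.insert_union _ _ _
        have e2 : insert e X ∩ Y = X ∩ Y := Finset.insert_inter_of_notMem heY
        have e3 : X ∪ insert e Y = insert e (X ∪ Y) := Finset.union_insert _ _ _
        have e4 : X ∩ insert e Y = X ∩ Y := Finset.inter_insert_of_notMem heX
        have e5 : insert e X ∪ insert e Y = insert e (X ∪ Y) := (Finset.insert_union_distrib _ _ _).symm
        have e6 : insert e X ∩ insert e Y = insert e (X ∩ Y) := (Finset.insert_inter_distrib _ _ _).symm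
        rw [e1, e2] at h2
        rw [e3, e4] at h3
        rw [e5, e6] at h4
        have a1 := min_le_left (b (X ∪ Y)) (b (insert e (X ∪ Y)) - t)
        have a2 := min_le_right (b (X ∪ Y)) (b (insert e (X ∪ Y)) - t)
        have a3 := min_le_left (b (X ∩ Y)) (b (insert e (X ∩ Y)) - t)
        have a4 := min_le_right (b (X ∩ Y)) (b (insert e (X ∩ Y)) - t)
        show _ ≤ min (b X) (b (insert e X) - t) + min (b Y) (b (insert e Y) - t)
        rcases min_choice (b X) (b (insert e X) - t) with c1 | c1 <;>
          rcases min_choice (b Y) (b (insert e Y) - t) with c2 | c2 <;> rw [c1, c2] <;> linarith)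
      (by
        intro X hX
        have h1 := hpb X (hss X hX)
        have h2 := hpb (insert e X) (hse X hX)
        have h3 := ht1 X hX
        have h4 := ht2 X hX
        refine max_le (le_min ?_ ?_) (le_min ?_ ?_) <;> linarith)
      (by
        have h1 := ht1 ∅ (Finset.empty_subset _)
        rw [hb0] at h1
        show max (p ∅) (p (insert e ∅) - t) = 0
        rw [hp0]
        apply max_eq_left
        linarith)
      (by
        have h1 := ht2 ∅ (Finset.empty_subset _)
        rw [hp0] at h1
        show min (b ∅) (b (insert e ∅) - t) = 0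
        rw [hb0]
        apply min_eq_left
        linarith)
    refine ⟨Function.update m e t, fun X hX => ?_⟩
    by_cases heX : e ∈ X
    · have hX' : X.erase e ⊆ S := by
        intro x hx
        obtain ⟨h1, h2⟩ := Finset.mem_erase.1 hx
        exact (Finset.mem_insert.1 (hX h2)).resolve_left h1
      have hs : ∑ i ∈ X, Function.update m e t i = t + ∑ i ∈ X.erase e, m i := by
        rw [← Finset.add_sum_erase X _ heX, Function.update_self]
        congr 1
        apply Finset.sum_congr rfl
        intro i hi
        rw [Function.update_of_ne (Finset.ne_of_mem_erase hi)]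
      have hi : insert e (X.erase e) = X := Finset.insert_erase heX
      obtain ⟨h1, h2⟩ := hm _ hX'
      have h3 : p (insert e (X.erase e)) - t ≤ max (p (X.erase e)) (p (insert e (X.erase e)) - t) := le_max_right _ _
      have h4 : min (b (X.erase e)) (b (insert e (X.erase e)) - t) ≤ b (insert e (X.erase e)) - t := min_le_right _ _
      rw [hi] at h3 h4
      simp only [hi] at h1 h2
      rw [hs]
      constructor <;> linarith
    · have hX' : X ⊆ S := by
        intro x hx
        rcases Finset.mem_insert.1 (hX hx) with h | h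
        · exact absurd (h ▸ hx) heX
        · exact h
      have hs : ∑ i ∈ X, Function.update m e t i = ∑ i ∈ X, m i := by
        apply Finset.sum_congr rfl
        intro i hi
        have hie : i ≠ e := by
          rintro rfl
          exact heX hi
        rw [Function.update_of_ne hie]
      obtain ⟨h1, h2⟩ := hm _ hX'
      have h3 : p X ≤ max (p X) (p (insert e X) - t) := le_max_left _ _
      have h4 : min (b X) (b (insert e X) - t) ≤ b X := min_le_left _ _
      rw [hs]
      constructor <;> linarith

/-- the discrete sandwich theorem -/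
theorem sandwich {α : Type*} [DecidableEq α] [Fintype α] (p b : Finset α → ℤ)
    (hp : ∀ X Y, p X + p Y ≤ p (X ∪ Y) + p (X ∩ Y)) (hb : ∀ X Y, b (X ∪ Y) + b (X ∩ Y) ≤ b X + b Y)
    (hpb : ∀ X, p X ≤ b X) (hp0 : p ∅ = 0) (hb0 : b ∅ = 0) :
    ∃ m : α → ℤ, ∀ X, p X ≤ ∑ i ∈ X, m i ∧ ∑ i ∈ X, m i ≤ b X := by
  obtain ⟨m, hm⟩ := sandwich_aux (Finset.univ : Finset α) p b (fun X Y _ _ => hp X Y) (fun X Y _ _ => hb X Y)
    (fun X _ => hpb X) hp0 hb0
  exact ⟨m, fun X => hm X (Finset.subset_univ X)⟩

/-- the integral intersection theorem: two integral base polyhedra have a common integral point -/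
theorem common_base {α : Type*} [DecidableEq α] [Fintype α] (f g : Finset α → ℤ)
    (hf : ∀ X Y, f (X ∪ Y) + f (X ∩ Y) ≤ f X + f Y) (hg : ∀ X Y, g (X ∪ Y) + g (X ∩ Y) ≤ g X + g Y)
    (hf0 : f ∅ = 0) (hg0 : g ∅ = 0) (c : ℤ) (hf1 : f univ = c) (hg1 : g univ = c)
    (h : ∀ X, c ≤ f X + g Xᶜ) :
    ∃ m : α → ℤ, ∑ i, m i = c ∧ ∀ X, ∑ i ∈ X, m i ≤ f X ∧ ∑ i ∈ X, m i ≤ g X := by
  obtain ⟨m, hm⟩ := sandwich (fun X => c - g Xᶜ) f
    (by
      intro X Y
      have h1 := hg Xᶜ Yᶜ
      rw [← Finset.compl_inter, ← Finset.compl_union] at h1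
      show c - g Xᶜ + (c - g Yᶜ) ≤ c - g (X ∪ Y)ᶜ + (c - g (X ∩ Y)ᶜ)
      linarith) hf
    (by
      intro X
      have := h X
      show c - g Xᶜ ≤ f X
      linarith) (by simp [hg1]) hf0
  have hs : ∑ i, m i = c := by
    apply le_antisymm
    · rw [← hf1]; exact (hm univ).2
    · have h1 := (hm univ).1
      simpa [hg0] using h1
  refine ⟨m, hs, fun X => ⟨(hm X).2, ?_⟩⟩
  have h1 := (hm Xᶜ).1
  have h2 : ∑ i ∈ X, m i + ∑ i ∈ Xᶜ, m i = ∑ i, m i := Finset.sum_add_sum_compl X m
  simp only [compl_compl] at h1
  linarith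

end Pool.Agent.J4H86.FR
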